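import Pool.Agent.Lib.MP_17d4d1_pr.Reduce
import Pool.Agent.Lib.MP_17d4d1_pr.C.Iface

set_option autoImplicit false

/-!
# Module PUREF (MP_17d4d1_pr, three chains): from the certificates to functions
-/

namespace Pool.Agent.Lib.MP_17d4d1_pr.C.H93

open Finset Pool.Agent.Lib.MP_17d4d1_pr Pool.Agent.Lib.MP_17d4d1_pr.C

lemma three_d : ∀ d : P, d + d + d = 0 := by decide

lemma dd_mem : ∀ d ∈ D, d + d ∈ D := by decide

lemma dddd : ∀ d ∈ D, (d + d) + (d + d) = d := by decide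

lemma card_D : D.card = 8 := by decide

/-- indicator of a Boolean function. -/
def ch (U : P → Bool) (x : P) : ℝ := ((U x).toNat : ℝ)

lemma layer' (W f : P → ℝ) (hf : Mo f)
    (h : ∀ U : P → Bool, Up U → 0 ≤ ∑ x, ch U x * W x) : 0 ≤ ∑ x, f x * W x := by
  classical
  refine layer W _ f hf.nn rfl (fun s _ => ?_)
  have h1 := h (fun x => decide (s ≤ f x)) ?_
  · have h2 : ∀ x, (if s ≤ f x then (1 : ℝ) else 0) = ch (fun x => decide (s ≤ f x)) x := by
      intro x
      unfold ch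
      by_cases hx : s ≤ f x <;> simp [hx]
    simp only [h2]
    exact h1
  · intro x y hxy hx
    simp only [decide_eq_true_eq] at hx ⊢
    exact hx.trans (hf.mono hxy)

/-- reindexing `(x, d) -> (x + d, 2 d)`. -/
lemma re1 (G : P → P → ℝ) :
    ∑ x, ∑ d ∈ D, G x d = ∑ x, ∑ d ∈ D, G (x + d) (d + d) := by
  rw [sum_comm, sum_comm (s := univ) (t := D) (f := fun x d => G (x + d) (d + d))]
  have h1 : ∀ d : P, ∑ x, G (x + d) (d + d) = ∑ x, G x (d + d) := by
    intro d
    exact Equiv.sum_comp (Equiv.addRight d) (fun x => G x (d + d))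
  simp only [h1]
  refine sum_nbij' (fun d => d + d) (fun d => d + d) dd_mem dd_mem dddd dddd ?_
  intro d hd
  rw [dddd d hd]

/-- reindexing `(x, d) -> (x + 2 d, d)`. -/
lemma re2 (G : P → P → ℝ) :
    ∑ x, ∑ d ∈ D, G x d = ∑ x, ∑ d ∈ D, G (x + d + d) d := by
  rw [sum_comm, sum_comm (s := univ) (t := D) (f := fun x d => G (x + d + d) d)]
  refine sum_congr rfl (fun d _ => ?_)
  have h1 := Equiv.sum_comp (Equiv.addRight (d + d)) (fun x => G x d)
  simp only [Equiv.coe_addRight, ← add_assoc] at h1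
  exact h1.symm

lemma add3 (x d : P) : x + d + (d + d) = x := by
  have h := three_d d
  calc x + d + (d + d) = x + (d + d + d) := by abel
    _ = x := by rw [h, add_zero]

lemma add3' (x d : P) : x + d + d + d = x := by
  have h := three_d d
  calc x + d + d + d = x + (d + d + d) := by abel
    _ = x := by rw [h, add_zero]

/-- the bilinear part. -/
def Bil (H : P → Bool) (q : P → ℕ) (u v : P → ℝ) : ℝ :=
  ∑ x, u x * (v x * q x + ∑ d ∈ D, v (x + d) * (ch H (x + d + d) - ch H x - ch H (x + d)))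

lemma bil_expand (H : P → Bool) (q : P → ℕ) (u v : P → ℝ) :
    Bil H q u v = ∑ x, u x * v x * q x +
      ∑ x, ∑ d ∈ D, u x * v (x + d) * (ch H (x + d + d) - ch H x - ch H (x + d)) := by
  unfold Bil
  rw [← sum_add_distrib]
  refine sum_congr rfl (fun x _ => ?_)
  rw [mul_add, mul_sum]
  congr 1
  · ring
  · refine sum_congr rfl (fun d _ => ?_)
    ring

lemma bil_comm (H : P → Bool) (q : P → ℕ) (u v : P → ℝ) : Bil H q u v = Bil H q v u := by
  rw [bil_expand, bil_expand]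
  congr 1
  · refine sum_congr rfl (fun x _ => ?_)
    ring
  · rw [re1 (fun x d => u x * v (x + d) * (ch H (x + d + d) - ch H x - ch H (x + d)))]
    refine sum_congr rfl (fun x _ => sum_congr rfl (fun d _ => ?_))
    have h1 : x + d + (d + d) = x := add3 x d
    have h2 : x + d + (d + d) + (d + d) = x + d + d := by
      rw [h1, add_assoc]
    rw [h2, h1]
    ring

lemma bil_nonneg (H : P → Bool) (q : P → ℕ)
    (hA2 : ∀ U V, Up U → Up V → A2 H q U V) (a b : P → ℝ) (ha : Mo a) (hb : Mo b) :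
    0 ≤ Bil H q a b := by
  refine layer' _ a ha (fun U hU => ?_)
  change 0 ≤ Bil H q (ch U) b
  rw [bil_comm]
  refine layer' _ b hb (fun V hV => ?_)
  change 0 ≤ Bil H q (ch V) (ch U)
  rw [bil_comm, bil_expand]
  have h := hA2 U V hU hV
  unfold A2 at h
  have h' : ((∑ x, ∑ d ∈ D, (U x).toNat * (V (x + d)).toNat *
        ((H x).toNat + (H (x + d)).toNat) : ℕ) : ℝ) ≤
      ((∑ x, (U x).toNat * (V x).toNat * q x +
        ∑ x, ∑ d ∈ D, (U x).toNat * (V (x + d)).toNat * (H (x + d + d)).toNat : ℕ) : ℝ) := by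
    exact_mod_cast h
  push_cast at h'
  have h3 : ∑ x, ∑ d ∈ D, ch U x * ch V (x + d) * (ch H (x + d + d) - ch H x - ch H (x + d))
      = ∑ x, ∑ d ∈ D, ch U x * ch V (x + d) * ch H (x + d + d)
        - ∑ x, ∑ d ∈ D, ch U x * ch V (x + d) * (ch H x + ch H (x + d)) := by
    rw [← sum_sub_distrib]
    refine sum_congr rfl (fun x _ => ?_)
    rw [← sum_sub_distrib]
    refine sum_congr rfl (fun d _ => ?_)
    ring
  rw [h3]
  unfold ch
  linarith

lemma kpart (H : P → Bool) (q : P → ℕ) (hA1 : ∀ W, Up W → A1 H q W) (k : P → ℝ) (hk : Mo k) :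
    0 ≤ ∑ x, k x * (16 * ch H x - ∑ d ∈ D, ch H (x + d) - q x) := by
  refine layer' _ k hk (fun W hW => ?_)
  have h := hA1 W hW
  unfold A1 at h
  have h' : ((∑ x, (W x).toNat * q x + ∑ x, ∑ d ∈ D, (W x).toNat * (H (x + d)).toNat : ℕ) : ℝ) ≤
      ((16 * ∑ x, (W x).toNat * (H x).toNat : ℕ) : ℝ) := by
    exact_mod_cast h
  push_cast at h'
  have h3 : ∑ x, ch W x * (16 * ch H x - ∑ d ∈ D, ch H (x + d) - q x)
      = 16 * ∑ x, ch W x * ch H x - ∑ x, ∑ d ∈ D, ch W x * ch H (x + d)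
        - ∑ x, ch W x * q x := by
    rw [mul_sum, ← sum_sub_distrib, ← sum_sub_distrib]
    refine sum_congr rfl (fun x _ => ?_)
    rw [← mul_sum]
    ring
  rw [h3]
  unfold ch
  linarith

lemma pure_expand (H : P → Bool) (k a b : P → ℝ) :
    Pure (ch H) k a b = ∑ x, k x * (16 * ch H x - ∑ d ∈ D, ch H (x + d)) +
      ∑ x, ∑ d ∈ D, a x * b (x + d) * (ch H (x + d + d) - ch H x - ch H (x + d)) := by
  have e1 : ∑ x, ∑ d ∈ D, ch H x * k (x + d) = ∑ x, ∑ d ∈ D, k x * ch H (x + d) := by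
    rw [re1 (fun x d => ch H x * k (x + d))]
    refine sum_congr rfl (fun x _ => sum_congr rfl (fun d _ => ?_))
    rw [add3]
    ring
  have e2 : ∑ x, ∑ d ∈ D, ch H x * b x * a (x + d)
      = ∑ x, ∑ d ∈ D, a x * b (x + d) * ch H (x + d) := by
    rw [re1 (fun x d => ch H x * b x * a (x + d))]
    refine sum_congr rfl (fun x _ => sum_congr rfl (fun d _ => ?_))
    rw [add3]
    ring
  have e3 : ∑ x, ∑ d ∈ D, ch H x * (a (x + d) * b (x + d + d))
      = ∑ x, ∑ d ∈ D, a x * b (x + d) * ch H (x + d + d) := by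
    rw [re2 (fun x d => ch H x * (a (x + d) * b (x + d + d)))]
    refine sum_congr rfl (fun x _ => sum_congr rfl (fun d _ => ?_))
    rw [add3']
    ring
  have e4 : ∑ x, ∑ d ∈ D, 2 * (ch H x * k x) = ∑ x, k x * (16 * ch H x) := by
    refine sum_congr rfl (fun x _ => ?_)
    rw [sum_const, card_D]
    simp only [nsmul_eq_mul]
    push_cast
    ring
  have e5 : Pure (ch H) k a b = ∑ x, ∑ d ∈ D, 2 * (ch H x * k x)
      - ∑ x, ∑ d ∈ D, ch H x * k (x + d) - ∑ x, ∑ d ∈ D, a x * b (x + d) * ch H x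
      - ∑ x, ∑ d ∈ D, ch H x * b x * a (x + d)
      + ∑ x, ∑ d ∈ D, ch H x * (a (x + d) * b (x + d + d)) := by
    unfold Pure
    rw [← sum_sub_distrib, ← sum_sub_distrib, ← sum_sub_distrib, ← sum_add_distrib]
    refine sum_congr rfl (fun x _ => ?_)
    rw [← sum_sub_distrib, ← sum_sub_distrib, ← sum_sub_distrib, ← sum_add_distrib]
    refine sum_congr rfl (fun d _ => ?_)
    ring
  have e6 : ∑ x, k x * (16 * ch H x - ∑ d ∈ D, ch H (x + d))
      = ∑ x, k x * (16 * ch H x) - ∑ x, ∑ d ∈ D, k x * ch H (x + d) := by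
    rw [← sum_sub_distrib]
    refine sum_congr rfl (fun x _ => ?_)
    rw [← mul_sum]
    ring
  have e7 : ∑ x, ∑ d ∈ D, a x * b (x + d) * (ch H (x + d + d) - ch H x - ch H (x + d))
      = ∑ x, ∑ d ∈ D, a x * b (x + d) * ch H (x + d + d)
        - ∑ x, ∑ d ∈ D, a x * b (x + d) * ch H x
        - ∑ x, ∑ d ∈ D, a x * b (x + d) * ch H (x + d) := by
    rw [← sum_sub_distrib, ← sum_sub_distrib]
    refine sum_congr rfl (fun x _ => ?_)
    rw [← sum_sub_distrib, ← sum_sub_distrib]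
    refine sum_congr rfl (fun d _ => ?_)
    ring
  rw [e5, e6, e7, e1, e2, e3, e4]
  ring

theorem puref : PUREF_S := by
  intro hC h k a b hh hk ha hb hab
  have hW : Pure h k a b = ∑ x, h x * ∑ d ∈ D, (2 * k x - k (x + d) - a x * b (x + d)
      - b x * a (x + d) + a (x + d) * b (x + d + d)) := by
    unfold Pure
    refine sum_congr rfl (fun x _ => ?_)
    rw [mul_sum]
    refine sum_congr rfl (fun d _ => ?_)
    ring
  rw [hW]
  refine layer' _ h hh (fun H hH => ?_)
  have hW' : Pure (ch H) k a b = ∑ x, ch H x * ∑ d ∈ D, (2 * k x - k (x + d) - a x * b (x + d)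
      - b x * a (x + d) + a (x + d) * b (x + d + d)) := by
    unfold Pure
    refine sum_congr rfl (fun x _ => ?_)
    rw [mul_sum]
    refine sum_congr rfl (fun d _ => ?_)
    ring
  rw [← hW', pure_expand]
  obtain ⟨q, hq1, hq2⟩ := hC H hH
  have h1 := kpart H q hq1 k hk
  have h2 := bil_nonneg H q hq2 a b ha hb
  rw [bil_expand] at h2
  have h3 : 0 ≤ ∑ x, (q x : ℝ) * (k x - a x * b x) := by
    refine sum_nonneg (fun x _ => mul_nonneg (Nat.cast_nonneg _) ?_)
    linarith [hab x]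
  have h4 : ∑ x, k x * (16 * ch H x - ∑ d ∈ D, ch H (x + d) - q x)
      = ∑ x, k x * (16 * ch H x - ∑ d ∈ D, ch H (x + d)) - ∑ x, (q x : ℝ) * k x := by
    rw [← sum_sub_distrib]
    refine sum_congr rfl (fun x _ => ?_)
    ring
  have h5 : ∑ x, (q x : ℝ) * (k x - a x * b x)
      = ∑ x, (q x : ℝ) * k x - ∑ x, a x * b x * q x := by
    rw [← sum_sub_distrib]
    refine sum_congr rfl (fun x _ => ?_)
    ring
  rw [h4] at h1
  rw [h5] at h3
  linarith

end Pool.Agent.Lib.MP_17d4d1_pr.C.H93
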